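import Pool.Agent.Helper1.SO.VSpan

set_option autoImplicit false

/-! SO-11: the number of colours of a full dimensional regular cell. -/

namespace Pool.Agent.Helper28.SO

private theorem cf_mem_argm {n d : ℕ} (w : Fin n → Fin d → ℝ) (y : Fin d → ℝ) (i : Fin n) (k : Fin d) :
    k ∈ argm w y i ↔ ∀ k', w i k - y k ≤ w i k' - y k' := by
  classical
  unfold argm
  simp

private theorem cf_argm_nonempty {n d : ℕ} (hd : 1 ≤ d) (w : Fin n → Fin d → ℝ) (y : Fin d → ℝ)
    (i : Fin n) : (argm w y i).Nonempty := by
  have : Nonempty (Fin d) := ⟨⟨0, hd⟩⟩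
  obtain ⟨k, hk⟩ := Finite.exists_min (fun k => w i k - y k)
  exact ⟨k, (cf_mem_argm w y i k).2 hk⟩

/-- SO-11. -/
theorem card_of_finrank {n d : ℕ} (hd : 1 ≤ d) (w : Fin n → Fin d → ℝ) (hw : Generic w)
    (y : Fin d → ℝ) (h : Module.finrank ℝ (vectorSpan ℝ (cell (argm w y))) = d - 1) :
    ∑ i, ((argm w y i).card - 1) = d - 1 := by
  classical
  have hne : ∀ i, (argm w y i).Nonempty   := cf_argm_nonempty hd w y
  rw [vectorSpan_cell (argm w y) hne] at h
  have hmem : ∀ i k, k ∈ argm w y i ↔ ∀ k', w i k - y k ≤ w i k' - y k' := cf_mem_argm w y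
  revert h hne hmem
  generalize argm w y = B
  intro h hne hmem
  choose c hc using hne
  let P := {p : Fin n × Fin d // p.2 ∈ B p.1 ∧ p.2 ≠ c p.1}
  have hcard : Fintype.card P = ∑ i, ((B i).card - 1) := by
    rw [Fintype.card_subtype]
    have h1 : (Finset.univ.filter fun p : Fin n × Fin d => p.2 ∈ B p.1 ∧ p.2 ≠ c p.1).card =
        ∑ i, ((Finset.univ.filter fun p : Fin n × Fin d => p.2 ∈ B p.1 ∧ p.2 ≠ c p.1).filter
          fun p => p.1 = i).card :=
      Finset.card_eq_sum_card_fiberwise (fun _ _ => Finset.mem_coe.2 (Finset.mem_univ _))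
    rw [h1]
    refine Finset.sum_congr rfl fun i _ => ?_
    rw [← Finset.card_erase_of_mem (hc i)]
    refine Finset.card_bij (fun p _ => p.2) ?_ ?_ ?_
    · rintro ⟨i', k⟩ hp
      simp only [Finset.mem_filter, Finset.mem_univ, true_and] at hp
      obtain ⟨⟨h2, h3⟩, rfl⟩ := hp
      exact Finset.mem_erase.2 ⟨h3, h2⟩
    · rintro ⟨i', k⟩ hp ⟨i'', k'⟩ hp' hk
      simp only [Finset.mem_filter, Finset.mem_univ, true_and] at hp hp'
      obtain ⟨-, rfl⟩ := hp
      obtain ⟨-, rfl⟩ := hp'
      exact Prod.ext rfl hk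
    · intro k hk
      rw [Finset.mem_erase] at hk
      exact ⟨(i, k), by simp [hk.1, hk.2], rfl⟩
  rw [← hcard]
  apply le_antisymm
  · -- linear independence over the rationals
    let FQ : P → Fin d → ℚ := fun p => Pi.single p.1.2 1 - Pi.single (c p.1.1) 1
    have hFQ : LinearIndependent ℚ FQ := by
      rw [Fintype.linearIndependent_iff]
      intro g hg p₀
      -- the functional given by `y`
      let φ : (Fin d → ℚ) →ₗ[ℚ] ℝ := Fintype.linearCombination ℚ y
      have hφ : ∀ k, φ (Pi.single k 1) = y k := by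
        intro k
        simp [φ, Fintype.linearCombination_apply_single]
      have h1 : ∑ p : P, g p • (y p.1.2 - y (c p.1.1)) = 0 := by
        have := congrArg φ hg
        rw [map_sum, map_zero] at this
        rw [← this]
        refine Finset.sum_congr rfl fun p _ => ?_
        rw [map_smul, map_sub, hφ, hφ]
      have h2 : ∀ p : P, y p.1.2 - y (c p.1.1) = w p.1.1 p.1.2 - w p.1.1 (c p.1.1) := by
        rintro ⟨⟨i, k⟩, hk, -⟩
        have e1 := (hmem i k).1 hk (c i)
        have e2 := (hmem i (c i)).1 (hc i) k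
        show y k - y (c i) = w i k - w i (c i)
        linarith
      let ψ : (Fin n × Fin d → ℚ) →ₗ[ℚ] ℝ := Fintype.linearCombination ℚ (fun p => w p.1 p.2)
      have hψ : ∀ p, ψ (Pi.single p 1) = w p.1 p.2 := by
        intro p
        simp [ψ, Fintype.linearCombination_apply_single]
      have hinj : Function.Injective ψ := by
        rw [← linearIndependent_iff_injective_fintypeLinearCombination]
        exact hw
      have h3 : ∑ p : P, g p • ((Pi.single p.1 1 : Fin n × Fin d → ℚ) -
          Pi.single (p.1.1, c p.1.1) 1) = 0 := by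
        apply hinj
        rw [map_sum, map_zero, ← h1]
        refine Finset.sum_congr rfl fun p _ => ?_
        rw [map_smul, map_sub, hψ, hψ, h2]
      have h4 := congrFun h3 p₀.1
      rw [Finset.sum_apply] at h4
      rw [Finset.sum_eq_single p₀] at h4
      · have e1 : (Pi.single (p₀.1.1, c p₀.1.1) 1 : Fin n × Fin d → ℚ) p₀.1 = 0 := by
          apply Pi.single_eq_of_ne
          intro h
          exact p₀.2.2 (congrArg Prod.snd h)
        simpa [e1] using h4
      · intro p _ hp
        have e1 : (Pi.single p.1 1 : Fin n × Fin d → ℚ) p₀.1 = 0 := by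
          apply Pi.single_eq_of_ne
          intro h
          exact hp (Subtype.ext h.symm)
        have e2 : (Pi.single (p.1.1, c p.1.1) 1 : Fin n × Fin d → ℚ) p₀.1 = 0 := by
          apply Pi.single_eq_of_ne
          intro h
          apply p₀.2.2
          rw [h]
        simp [e1, e2]
      · intro h
        exact absurd (Finset.mem_univ _) h
    let s : (Fin d → ℚ) →ₗ[ℚ] ℚ := Fintype.linearCombination ℚ (fun _ => (1 : ℚ))
    have hs : ∀ k, s (Pi.single k 1) = 1 := by
      intro k
      simp [s, Fintype.linearCombination_apply_single]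
    have hker : ∀ p, FQ p ∈ LinearMap.ker s := by
      intro p
      rw [LinearMap.mem_ker, map_sub, hs, hs, sub_self]
    have hdim : Module.finrank ℚ (LinearMap.ker s) = d - 1 := by
      have h5 := LinearMap.finrank_range_add_finrank_ker s
      have h6 : LinearMap.range s = ⊤ := by
        rw [LinearMap.range_eq_top]
        intro a
        exact ⟨a • Pi.single ⟨0, hd⟩ 1, by rw [map_smul, hs]; simp⟩
      rw [h6, finrank_top, Module.finrank_self, Module.finrank_fin_fun] at h5
      omega
    have h7 : LinearIndependent ℚ (fun p : P => (⟨FQ p, hker p⟩ : LinearMap.ker s)) := by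
      apply LinearIndependent.of_comp (LinearMap.ker s).subtype
      exact hFQ
    have h8 := h7.fintype_card_le_finrank
    rw [hdim] at h8
    exact h8
  · -- generators
    rw [← h]
    let F : P → Fin d → ℝ := fun p => Pi.single p.1.2 1 - Pi.single (c p.1.1) 1
    have h1 : Submodule.span ℝ
        {z : Fin d → ℝ | ∃ i, ∃ k ∈ B i, ∃ k' ∈ B i, z = Pi.single k 1 - Pi.single k' 1} ≤
        Submodule.span ℝ (Set.range F) := by
      rw [Submodule.span_le]
      have h2 : ∀ i, ∀ k ∈ B i, (Pi.single k 1 - Pi.single (c i) 1 : Fin d → ℝ) ∈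
          Submodule.span ℝ (Set.range F) := by
        intro i k hk
        by_cases hkc : k = c i
        · rw [hkc, sub_self]
          exact Submodule.zero_mem _
        · exact Submodule.subset_span ⟨⟨(i, k), hk, hkc⟩, rfl⟩
      rintro z ⟨i, k, hk, k', hk', rfl⟩
      have e : (Pi.single k 1 - Pi.single k' 1 : Fin d → ℝ) =
          (Pi.single k 1 - Pi.single (c i) 1) - (Pi.single k' 1 - Pi.single (c i) 1) := by
        abel
      rw [e]
      exact Submodule.sub_mem _ (h2 i k hk) (h2 i k' hk')
    exact (Submodule.finrank_mono h1).trans (finrank_range_le_card F)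

end Pool.Agent.Helper28.SO
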